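import Pool.Agent.H8.UGC.Stm

/-!
# Block C, C7: the start of the induction

If a polynomial in the coefficients and the coordinates vanishes on all Brody curves but not on the
universal hypersurface, then there is a line of forms which meets the closure of the bad forms only
in zero.
-/

set_option autoImplicit false

open MvPolynomial

namespace Pool.Agent.H28.UGC

open Pool.Agent.H47.KB Pool.Agent.H8.UGC

/-- linear substitution -/
noncomputable def sub {n : ℕ} (B : Vec n →ₗ[ℂ] Vec n) : Frm n →ₐ[ℂ] Frm n :=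
  aeval fun i => ∑ j, C (B (Pi.single j 1) i) * X j

theorem eval_sub {n : ℕ} (B : Vec n →ₗ[ℂ] Vec n) (x : Vec n) (F : Frm n) :
    eval x (sub B F) = eval (B x) F := by
  have h1 : B x = fun i => ∑ j, B (Pi.single j 1) i * x j := by
    have h2 : B x = ∑ j, x j • B (Pi.single j 1) := by
      conv_lhs => rw [pi_eq_sum_univ x, map_sum]
      refine Finset.sum_congr rfl fun j _ => ?_
      rw [map_smul]
      congr 2
      funext t
      rw [Pi.single_apply]
      simp only [eq_comm]
    rw [h2]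
    funext i
    rw [Finset.sum_apply]
    exact Finset.sum_congr rfl fun j _ => by rw [Pi.smul_apply, smul_eq_mul, mul_comm]
  unfold sub
  rw [← aeval_eq_eval, ← aeval_eq_eval, ← AlgHom.comp_apply, comp_aeval]
  congr 2
  funext i
  rw [h1]
  simp [aeval_eq_eval]

theorem sub_hom {n d : ℕ} (B : Vec n →ₗ[ℂ] Vec n) {F : Frm n} (hF : F.IsHomogeneous d) :
    (sub B F).IsHomogeneous d := by
  have h1 : ∀ i, (∑ j, C (B (Pi.single j 1) i) * X j : Frm n).IsHomogeneous 1 := by
    intro i
    refine IsHomogeneous.sum _ _ _ fun j _ => ?_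
    have := (isHomogeneous_C (Fin (n + 2)) (B (Pi.single j 1) i)).mul (isHomogeneous_X ℂ j)
    rwa [zero_add] at this
  have h2 := hF.aeval _ h1
  rwa [one_mul] at h2

theorem ext_eval {n : ℕ} {F G : Frm n} (h : ∀ x, eval x F = eval x G) : F = G :=
  MvPolynomial.funext h

theorem isPoly_eval {V : Type} [AddCommGroup V] [Module ℂ V] {n : ℕ}
    (c : (Fin (n + 2) →₀ ℕ) → V →ₗ[ℂ] ℂ) (P : Cof n) : IsPoly (fun v => eval (fun m => c m v) P) := by
  induction P using MvPolynomial.induction_on with
  | C a =>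
    have h1 : (fun v => eval (fun m => c m v) (C a : Cof n)) = fun _ : V => a := by
      funext v
      exact eval_C a
    rw [h1]
    exact Pool.Agent.H8.UGC.IsPoly.const a
  | add p q hp hq =>
    have h1 : (fun v => eval (fun m => c m v) (p + q)) =
        (fun v => eval (fun m => c m v) p) + fun v => eval (fun m => c m v) q := by
      funext v
      exact map_add _ _ _
    rw [h1]
    exact hp.add hq
  | mul_X p m hp =>
    have h1 : (fun v => eval (fun m => c m v) (p * X m)) =
        (fun v => eval (fun m => c m v) p) * (⇑(c m) : V → ℂ) := by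
      funext v
      rw [map_mul, eval_X]
      rfl
    rw [h1]
    exact hp.mul (IsPoly.lin (c m))

theorem isPoly_spec {V : Type} [AddCommGroup V] [Module ℂ V] {n : ℕ} (L : V →ₗ[ℂ] Frm n)
    (Q : Fam n) (p : Vec n) : IsPoly (fun v => eval p (spec Q (L v))) := by
  have h1 : (fun v => eval p (spec Q (L v))) =
      ∑ a ∈ Q.support, ((∏ i, p i ^ a i) • fun v => eval (fun m => (L v).coeff m) (Q.coeff a)) := by
    funext v
    unfold spec
    rw [eval_map, eval₂_eq', Finset.sum_apply]
    refine Finset.sum_congr rfl fun a _ => ?_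
    rw [Pi.smul_apply, smul_eq_mul, mul_comm]
  rw [h1]
  refine IsPoly.sum _ fun a _ => IsPoly.smul _ ?_
  exact isPoly_eval (fun m => (lcoeff ℂ m).comp L) (Q.coeff a)

theorem start (hmap : MapS) (hzero : ZeroS) (hcone : ConeS) : StartS := by
  intro D d hd h
  obtain ⟨Q, ⟨F, p, hF, hp0, hpF, hQ⟩, hall⟩ := h
  have he0 : e0 D ≠ 0 := by
    intro h
    have h1 : e0 D 0 = 0 := congrFun h 0
    unfold e0 at h1
    rw [Pi.single_eq_same] at h1
    exact one_ne_zero h1
  obtain ⟨A, hA⟩ := SeparatingDual.exists_continuousLinearEquiv_apply_eq (R := ℂ) he0 hp0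
  let A1 : Vec D →ₗ[ℂ] Vec D := A.toLinearEquiv.toLinearMap
  let A2 : Vec D →ₗ[ℂ] Vec D := A.symm.toLinearEquiv.toLinearMap
  have hA1 : ∀ x, A1 x = A x := fun x => rfl
  have hA2 : ∀ x, A2 x = A.symm x := fun x => rfl
  -- the polynomial function
  let L : Vd D d →ₗ[ℂ] Frm D := (sub A2).toLinearMap.comp (Vd D d).subtype
  have hL : ∀ G : Vd D d, L G = sub A2 G.1 := fun G => rfl
  let f : Vd D d → ℂ := fun G => eval p (spec Q (L G))
  have hf : IsPoly f := isPoly_spec L Q p
  have hf0 : ∀ G ∈ Bad D d, f G = 0 := by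
    rintro G ⟨g, hg, hc, z, hz⟩
    have h1 := hmap D D A1 A.injective (sub A2 G.1) G.1 (fun x => by
      rw [eval_sub, hA2, hA1, ContinuousLinearEquiv.symm_apply_apply]) g hg hc
    have h2 := hall (sub A2 G.1) (sub_hom A2 (mem_Vd.1 G.2).1) _ h1.1 h1.2 z
    have h3 : A1 (g z) = p := by rw [hz, hA1, hA]
    rw [h3] at h2
    exact h2
  -- the point
  let w0 : Vd D d := ⟨sub A1 F, mem_Vd.2 ⟨sub_hom A1 hF, by rw [eval_sub, hA1, hA, hpF]⟩⟩
  have hw0 : f w0 ≠ 0 := by
    have h1 : L w0 = F := by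
      rw [hL]
      refine ext_eval fun x => ?_
      rw [eval_sub]
      show eval (A2 x) (sub A1 F) = eval x F
      rw [eval_sub, hA1, hA2, ContinuousLinearEquiv.apply_symm_apply]
    show eval p (spec Q (L w0)) ≠ 0
    rw [h1]
    exact hQ
  have hcl : w0 ∉ cl (Bad D d) := fun h => hw0 (h f hf hf0)
  have hcc : ∀ c : ℂ, ∀ z ∈ cl (Bad D d), c • z ∈ cl (Bad D d) := cl_cone (hcone D d)
  have hne : w0 ≠ 0 := by
    intro h
    apply hcl
    rw [h]
    exact subset_cl _ (hzero D d)
  refine ⟨Submodule.span ℂ {w0}, finrank_span_singleton hne, ?_⟩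
  intro w hw hwc
  obtain ⟨c, rfl⟩ := Submodule.mem_span_singleton.1 hw
  by_cases hc : c = 0
  · rw [hc, zero_smul]
  · exfalso
    apply hcl
    have h1 := hcc c⁻¹ (c • w0) hwc
    have h2 : c⁻¹ • c • w0 = w0 := inv_smul_smul₀ hc w0
    rw [h2] at h1
    exact h1

end Pool.Agent.H28.UGC
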